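import Mathlib
import Pool.Agent.TH669.TF.Lin
import Pool.Agent.H630R2.LR.Bounds

/-!
# Symmetries of Boolean matrices and the rank
(helper249, for MP_e5d384_lc)
-/

set_option autoImplicit false

namespace Pool.Agent.X249.AO

open Finset

/-- the matrix of `F` over `R` -/
def cmat {X Y : Type} (R : Type) [Zero R] [One R] (F : X → Y → Bool) : Matrix X Y R :=
  Matrix.of fun x y => if F x y then 1 else 0

theorem rank_rat_le {X Y : Type} [Fintype X] [Fintype Y] (F : X → Y → Bool) :
    (cmat ℚ F).rank ≤ (cmat ℝ F).rank := by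
  classical
  have h := Pool.Agent.W824.BJ.rank_map_le (Int.castRingHom ℝ) Int.cast_injective
    (Int.castRingHom ℚ) (cmat ℤ F)
  have e1 : (cmat ℤ F).map (Int.castRingHom ℝ) = cmat ℝ F := by
    ext i j
    simp [cmat]
  have e2 : (cmat ℤ F).map (Int.castRingHom ℚ) = cmat ℚ F := by
    ext i j
    simp [cmat]
  rwa [e1, e2] at h

/-- A symmetry of prime order of the rows of a matrix with distinct rows. -/
theorem prime_le_mat {X Y : Type} [Fintype X] [Fintype Y] (F : X → Y → Bool)
    (σ : Equiv.Perm X) (τ : Equiv.Perm Y) (hF : ∀ x y, F (σ x) (τ y) = F x y)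
    (hX : Function.Injective F) (p : ℕ) (hp : p.Prime) (hσ : σ ^ p = 1) (hσ1 : σ ≠ 1) :
    p ≤ (cmat ℝ F).rank + 1 := by
  classical
  refine le_trans ?_ (Nat.add_le_add_right (rank_rat_le F) 1)
  obtain ⟨B, hB⟩ : ∃ B : Matrix X Y ℚ, B = cmat ℚ F := ⟨_, rfl⟩
  have hadj : ∀ x y, B (σ x) (τ y) = B x y := by
    intro x y
    rw [hB]
    simp [cmat, hF]
  let P : (X → ℚ) →ₗ[ℚ] (X → ℚ) := LinearMap.funLeft ℚ ℚ (σ : X → X)
  have hPa : ∀ (f : X → ℚ) (x : X), P f x = f (σ x) := fun f x => rfl
  have hcomm : ∀ f : Y → ℚ, P (B.mulVecLin f) = B.mulVecLin (fun y => f (τ y)) := by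
    intro f
    funext x
    rw [hPa, Matrix.mulVecLin_apply, Matrix.mulVecLin_apply, Matrix.mulVec, Matrix.mulVec,
      dotProduct, dotProduct]
    refine (Fintype.sum_equiv τ _ _ fun y => ?_).symm
    rw [hadj x y]
  have hmap : ∀ w ∈ LinearMap.range B.mulVecLin, P w ∈ LinearMap.range B.mulVecLin := by
    rintro w ⟨f, rfl⟩
    exact ⟨_, (hcomm f).symm⟩
  let T : Module.End ℚ (LinearMap.range B.mulVecLin) := P.restrict hmap
  have hPpow : ∀ (k : ℕ) (f : X → ℚ) (x : X), (P ^ k) f x = f ((σ ^ k) x) := by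
    intro k
    induction k with
    | zero => intro f x; rfl
    | succ k ih =>
      intro f x
      rw [pow_succ, Module.End.mul_apply, ih, hPa, pow_succ']
      rfl
  have hTpow : ∀ (k : ℕ) (w : LinearMap.range B.mulVecLin),
      (((T ^ k) w : LinearMap.range B.mulVecLin) : X → ℚ) = (P ^ k) (w : X → ℚ) := by
    intro k
    induction k with
    | zero => intro w; rfl
    | succ k ih =>
      intro w
      rw [pow_succ, Module.End.mul_apply, ih, pow_succ, Module.End.mul_apply]
      rfl
  have hTp : T ^ p = 1 := by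
    apply LinearMap.ext
    intro w
    apply Subtype.ext
    rw [hTpow]
    funext x
    rw [hPpow, hσ]
    rfl
  have hT1 : T ≠ 1 := by
    intro hT
    apply hσ1
    ext v
    apply hX
    funext y
    have h0 : B (σ v) y = B v y := by
      let w : LinearMap.range B.mulVecLin := ⟨B.mulVecLin (Pi.single y 1), ⟨_, rfl⟩⟩
      have hw : ∀ x, (w : X → ℚ) x = B x y := by
        intro x
        change B.mulVecLin (Pi.single y 1) x = B x y
        rw [Matrix.mulVecLin_apply, Matrix.mulVec_single_one]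
        rfl
      have h1 : ((T w : LinearMap.range B.mulVecLin) : X → ℚ) v = (w : X → ℚ) v := by
        rw [hT]
        rfl
      have h2 : ((T w : LinearMap.range B.mulVecLin) : X → ℚ) v = (w : X → ℚ) (σ v) := rfl
      rw [← hw, ← hw, ← h2, h1]
    rw [hB] at h0
    simp only [cmat, Matrix.of_apply] at h0
    change F (σ v) y = F v y
    cases h3 : F (σ v) y <;> cases h4 : F v y <;> simp [h3, h4] at h0 ⊢
  have h9 := Pool.Agent.TH669.TF.end_order T p hp hTp hT1
  have h10 : Module.finrank ℚ (LinearMap.range B.mulVecLin) = (cmat ℚ F).rank := by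
    rw [← hB]
    rfl
  rw [h10] at h9
  exact h9

section action

variable {X Y : Type} [Fintype X] [Fintype Y] (F : X → Y → Bool)
  (Γ : Subgroup (Equiv.Perm X))

/-- every permutation in `Γ` can be completed by a permutation of the columns -/
def Symm : Prop := ∀ σ ∈ Γ, ∃ τ : Equiv.Perm Y, ∀ x y, F (σ x) (τ y) = F x y

/-- the classes of equal rows -/
abbrev Cls : Type := Quotient (Setoid.ker F)

/-- the row of a class -/
def row : Cls F → Y → Bool := Quotient.lift F fun _ _ h => h

theorem row_mk (x : X) : row F (Quotient.mk _ x) = F x := rfl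

theorem row_inj : Function.Injective (row F) := by
  intro a b
  induction a using Quotient.inductionOn
  induction b using Quotient.inductionOn
  intro h
  exact Quotient.sound h

variable {F Γ}

theorem compat (hΓ : Symm F Γ) (σ : Γ) (x x' : X) (h : F x = F x') :
    F ((σ : Equiv.Perm X) x) = F ((σ : Equiv.Perm X) x') := by
  obtain ⟨τ, hτ⟩ := hΓ σ σ.2
  funext y
  have h1 := hτ x (τ.symm y)
  have h2 := hτ x' (τ.symm y)
  rw [Equiv.apply_symm_apply] at h1 h2
  rw [h1, h2, h]

/-- the action on the classes of equal rows -/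
def act (hΓ : Symm F Γ) : MulAction Γ (Cls F) where
  smul σ := Quotient.map (σ : Equiv.Perm X) (fun x x' h => compat hΓ σ x x' h)
  one_smul q := by
    induction q using Quotient.inductionOn
    rfl
  mul_smul σ τ q := by
    induction q using Quotient.inductionOn
    rfl

theorem act_mk (hΓ : Symm F Γ) (σ : Γ) (x : X) :
    (act hΓ).toSMul.smul σ (Quotient.mk _ x) = Quotient.mk _ ((σ : Equiv.Perm X) x) := rfl

/-- the primes which divide the orbits of classes are small -/
theorem prime_orbit (hΓ : Symm F Γ) (q : Cls F) (p : ℕ) (hp : p.Prime)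
    (hd : letI := act hΓ; p ∣ Nat.card (MulAction.orbit Γ q)) : p ≤ (cmat ℝ F).rank + 1 := by
  classical
  letI := act hΓ
  obtain ⟨H, hH⟩ : ∃ H : Subgroup (Equiv.Perm (Cls F)), H = (MulAction.toPermHom Γ (Cls F)).range :=
    ⟨_, rfl⟩
  have horb : MulAction.orbit Γ q = MulAction.orbit H q := by
    ext z
    constructor
    · rintro ⟨g, rfl⟩
      exact ⟨⟨MulAction.toPermHom Γ (Cls F) g, by rw [hH]; exact ⟨g, rfl⟩⟩, rfl⟩
    · rintro ⟨⟨π, hπ⟩, rfl⟩
      rw [hH] at hπ
      obtain ⟨g, rfl⟩ := hπ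
      exact ⟨g, rfl⟩
  rw [horb] at hd
  have hdvd : Nat.card (MulAction.orbit H q) ∣ Nat.card H := by
    rw [Nat.card_coe_set_eq, ← MulAction.index_stabilizer]
    exact Subgroup.index_dvd_card _
  have : Fact p.Prime := ⟨hp⟩
  obtain ⟨π, hπ⟩ := exists_prime_orderOf_dvd_card' (G := H) p (hd.trans hdvd)
  obtain ⟨π, hπH⟩ := π
  have hπp : π ^ p = 1 := by
    have h1 := pow_orderOf_eq_one (⟨π, hπH⟩ : H)
    rw [hπ] at h1
    exact congrArg Subtype.val h1
  have hπ1 : π ≠ 1 := by
    rintro rfl
    have h1 : (⟨1, hπH⟩ : H) = 1 := rfl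
    rw [h1, orderOf_one] at hπ
    exact hp.one_lt.ne hπ
  rw [hH] at hπH
  obtain ⟨g, rfl⟩ := hπH
  obtain ⟨τ, hτ⟩ := hΓ g g.2
  have h2 := prime_le_mat (row F) (MulAction.toPermHom Γ (Cls F) g) τ (by
    intro c y
    induction c using Quotient.inductionOn with
    | _ x => exact hτ x y) (row_inj F) p hp hπp hπ1
  refine h2.trans (Nat.add_le_add_right ?_ 1)
  have e : cmat ℝ (row F) = (cmat ℝ F).submatrix Quotient.out id := by
    ext c y
    have : row F c = F c.out := by
      conv_lhs => rw [← Quotient.out_eq c]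
      rfl
    simp [cmat, this]
  rw [e]
  exact Matrix.rank_submatrix_le _ _ _

/-- the orbit of a class is not larger, and its size divides the size of the orbit -/
theorem orbit_dvd (hΓ : Symm F Γ) (x : X) :
    letI := act hΓ
    Nat.card (MulAction.orbit Γ (Quotient.mk _ x : Cls F)) ∣ Nat.card (MulAction.orbit Γ x) := by
  letI := act hΓ
  rw [Nat.card_coe_set_eq, Nat.card_coe_set_eq, ← MulAction.index_stabilizer,
    ← MulAction.index_stabilizer]
  apply Subgroup.index_dvd_of_le
  intro σ hσ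
  rw [MulAction.mem_stabilizer_iff] at hσ ⊢
  change (Quotient.mk _ ((σ : Equiv.Perm X) x) : Cls F) = Quotient.mk _ x
  have h : (σ : Equiv.Perm X) x = x := hσ
  rw [h]

/-- the number of distinct rows -/
theorem card_cls (hΓ : Symm F Γ) (B : ℝ)
    (hB : letI := act hΓ
      ∀ x : X, (Nat.card (MulAction.orbit Γ (Quotient.mk _ x : Cls F)) : ℝ) ≤ B) :
    (Nat.card (Cls F) : ℝ) ≤ Nat.card (MulAction.orbitRel.Quotient Γ X) * B := by
  classical
  letI := act hΓ
  have hfinQ : Finite (Cls F) := Quotient.finite _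
  have hfin : Finite (MulAction.orbitRel.Quotient Γ X) := Quotient.finite _
  have := Fintype.ofFinite (MulAction.orbitRel.Quotient Γ X)
  have hsurj : Function.Surjective (fun z : (Σ ω : MulAction.orbitRel.Quotient Γ X,
      MulAction.orbit Γ (Quotient.mk _ (Quotient.out ω) : Cls F)) => (z.2 : Cls F)) := by
    intro c
    induction c using Quotient.inductionOn with
    | _ x =>
      have h1 : (Quotient.mk _ x : MulAction.orbitRel.Quotient Γ X).out ∈ MulAction.orbit Γ x := by
        have h2 := Quotient.out_eq (Quotient.mk _ x : MulAction.orbitRel.Quotient Γ X)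
        exact Quotient.exact h2
      have h2 : x ∈ MulAction.orbit Γ (Quotient.mk _ x : MulAction.orbitRel.Quotient Γ X).out :=
        MulAction.mem_orbit_symm.1 h1
      obtain ⟨g, hg⟩ := h2
      refine ⟨⟨Quotient.mk _ x, ⟨Quotient.mk _ x, g, ?_⟩⟩, rfl⟩
      change (Quotient.mk _ ((g : Equiv.Perm X) _) : Cls F) = _
      exact congrArg _ hg
  have h3 := Nat.card_le_card_of_surjective _ hsurj
  rw [Nat.card_sigma] at h3
  refine le_trans (Nat.cast_le.2 h3) ?_
  rw [Nat.cast_sum, Nat.card_eq_fintype_card (α := MulAction.orbitRel.Quotient Γ X),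
    ← nsmul_eq_mul, ← card_univ]
  exact sum_le_card_nsmul _ _ _ fun ω _ => hB _

end action

open Pool.Agent.H630R2.LR in
/-- the protocol which sends the row -/
theorem row_protocol {X Y : Type} [Fintype X] (F : X → Y → Bool) :
    ∃ c : ℕ, Proto F c ∧ (c : ℝ) ≤ Real.logb 2 (Nat.card (Cls F)) + 2 := by
  classical
  have hfinQ : Finite (Cls F) := Quotient.finite _
  have := Fintype.ofFinite (Cls F)
  refine ⟨1 + Nat.clog 2 (Fintype.card (Cls F)), Proto.sendX F (fun x => (Quotient.mk _ x : Cls F))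
    (Nat.clog 2 (Fintype.card (Cls F))) (Nat.le_pow_clog (by norm_num) _)
    (fun q _ y => row F q y) 1 (fun q => ?_) (fun x y => rfl), ?_⟩
  · exact Proto.bob _ (fun y => row F q y) (fun v _ _ => v) 0
      (fun v => Proto.const _ v fun _ _ => rfl) (fun _ _ => rfl)
  · have h := clog_le (Fintype.card (Cls F))
    rw [Nat.card_eq_fintype_card]
    push_cast
    linarith

end Pool.Agent.X249.AO
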