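import Mathlib
import Pool.Agent.TH669.TF.Rankin

/-!
# Almost all integers have no large smooth divisors
(helper249, for MP_e5d384_lc)
-/

set_option autoImplicit false

namespace Pool.Agent.X249.AO

open Finset Real Pool.Agent.TH669.TF

/-- the Euler product for a finite set of `y`-smooth numbers -/
theorem smooth_sum (y : ℕ) (hy : 1 ≤ y) (σ : ℝ) (hσ : 1 / 2 ≤ σ) (hσ1 : σ ≤ 1) (S : Finset ℕ)
    (hS : ∀ n ∈ S, ∀ p : ℕ, p.Prime → p ∣ n → p ≤ y) :
    ∑ n ∈ S, (n : ℝ) ^ (-σ) ≤ exp (4 * ((y : ℝ) ^ (1 - σ) * (1 + log y))) := by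
  have hlt : ∀ {p : ℕ}, p.Prime → ‖powHom σ p‖ < 1 := by
    intro p hp
    rw [powHom_apply, norm_of_nonneg (by positivity)]
    exact lt_of_le_of_lt (prime_pow_le σ hσ p hp) (by norm_num)
  obtain ⟨-, h2⟩ := EulerProduct.summable_and_hasSum_smoothNumbers_prod_primesBelow_geometric
    (f := powHom σ) hlt (y + 1)
  have hmem : ∀ n ∈ S, n ∈ (y + 1).smoothNumbers := by
    intro n hn
    rw [Nat.mem_smoothNumbers']
    refine fun p hp hd => ?_
    have := hS n hn p hp hd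
    omega
  have h3 : ∑ n ∈ S, powHom σ n ≤ ∏ p ∈ (y + 1).primesBelow, (1 - powHom σ p)⁻¹ := by
    have h4 := sum_le_hasSum (S.attach.image (fun n => (⟨n.1, hmem n.1 n.2⟩ :
      (y + 1).smoothNumbers))) (fun n _ => ?_) h2
    · rw [sum_image] at h4
      · rw [← sum_attach]
        exact h4
      · intro a _ b _ hab
        apply Subtype.ext
        exact congrArg (fun z : (y + 1).smoothNumbers => (z : ℕ)) hab
    · rw [powHom_apply]
      positivity
  have h5 : ∏ p ∈ (y + 1).primesBelow, (1 - powHom σ p)⁻¹ ≤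
      exp (4 * ((y : ℝ) ^ (1 - σ) * (1 + log y))) := by
    calc ∏ p ∈ (y + 1).primesBelow, (1 - powHom σ p)⁻¹
        ≤ ∏ p ∈ (y + 1).primesBelow, exp (4 * (p : ℝ) ^ (-σ)) := by
          apply prod_le_prod
          · intro p hp
            rw [Nat.mem_primesBelow] at hp
            have := prime_pow_le σ hσ p hp.2
            rw [powHom_apply]
            apply inv_nonneg.2
            linarith
          · intro p hp
            rw [Nat.mem_primesBelow] at hp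
            rw [powHom_apply]
            exact one_sub_inv_le _ (by positivity) (prime_pow_le σ hσ p hp.2)
      _ = exp (4 * ∑ p ∈ (y + 1).primesBelow, (p : ℝ) ^ (-σ)) := by
          rw [← exp_sum, mul_sum]
      _ ≤ _ := by
          apply exp_le_exp.2
          exact mul_le_mul_of_nonneg_left (sum_primes_le y hy σ hσ1) (by norm_num)
  exact h3.trans h5

open Classical in
/-- few `n ≤ x` have a `y`-smooth divisor larger than `z` -/
theorem few_divisors (x y : ℕ) (hy : 1 ≤ y) (δ : ℝ) (hδ0 : 0 ≤ δ) (hδ : δ ≤ 1 / 2) (z : ℝ)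
    (hz : 0 < z) :
    (((Ioc 0 x).filter (fun n => ∃ d : ℕ, d ∣ n ∧ (∀ p : ℕ, p.Prime → p ∣ d → p ≤ y) ∧
      z < d)).card : ℝ) ≤ x * (z ^ (-δ) * exp (4 * ((y : ℝ) ^ δ * (1 + log y)))) := by
  obtain ⟨T, hT⟩ : ∃ T : Finset ℕ, T = (Ioc 0 x).filter (fun d =>
    (∀ p : ℕ, p.Prime → p ∣ d → p ≤ y) ∧ z < d) := ⟨_, rfl⟩
  have h1 : (Ioc 0 x).filter (fun n => ∃ d : ℕ, d ∣ n ∧ (∀ p : ℕ, p.Prime → p ∣ d → p ≤ y) ∧
      z < d) ⊆ T.biUnion fun d => (Ioc 0 x).filter fun n => d ∣ n := by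
    intro n hn
    rw [mem_filter, mem_Ioc] at hn
    obtain ⟨⟨hn0, hnx⟩, d, hd, hp, hzd⟩ := hn
    rw [mem_biUnion]
    refine ⟨d, ?_, ?_⟩
    · rw [hT, mem_filter, mem_Ioc]
      exact ⟨⟨Nat.pos_of_dvd_of_pos hd hn0, (Nat.le_of_dvd hn0 hd).trans hnx⟩, hp, hzd⟩
    · rw [mem_filter, mem_Ioc]
      exact ⟨⟨hn0, hnx⟩, hd⟩
  have h2 : (((Ioc 0 x).filter (fun n => ∃ d : ℕ, d ∣ n ∧ (∀ p : ℕ, p.Prime → p ∣ d → p ≤ y) ∧
      z < d)).card : ℝ) ≤ ∑ d ∈ T, (x : ℝ) * (z ^ (-δ) * (d : ℝ) ^ (-(1 - δ))) := by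
    have h3 := (card_le_card h1).trans card_biUnion_le
    refine le_trans (Nat.cast_le.2 h3) ?_
    push_cast
    refine sum_le_sum fun d hd => ?_
    rw [hT, mem_filter, mem_Ioc] at hd
    have hd0 : (0 : ℝ) < d := by exact_mod_cast hd.1.1
    have h4 : ((Ioc 0 x).filter fun n => d ∣ n).card = x / d := Nat.Ioc_filter_dvd_card_eq_div x d
    rw [h4]
    have h5 : ((x / d : ℕ) : ℝ) ≤ x / d := Nat.cast_div_le
    refine h5.trans ?_
    rw [div_eq_mul_inv]
    refine mul_le_mul_of_nonneg_left ?_ (by positivity)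
    have h6 : (d : ℝ)⁻¹ = (d : ℝ) ^ (-δ) * (d : ℝ) ^ (-(1 - δ)) := by
      rw [← rpow_add hd0, ← rpow_neg_one]
      congr 1
      ring
    rw [h6]
    refine mul_le_mul_of_nonneg_right ?_ (by positivity)
    exact rpow_le_rpow_of_nonpos hz hd.2.2.le (by linarith)
  refine h2.trans ?_
  rw [← mul_sum, ← mul_sum]
  refine mul_le_mul_of_nonneg_left ?_ (by positivity)
  refine mul_le_mul_of_nonneg_left ?_ (by positivity)
  have h7 := smooth_sum y hy (1 - δ) (by linarith) (by linarith) T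
    (fun n hn => by rw [hT, mem_filter] at hn; exact hn.2.1)
  rwa [sub_sub_cancel] at h7

/-- the bound at the scale `2 ^ 2 ^ j` -/
theorem scale (K : ℕ) (hK : 40 ≤ K) (j : ℕ) :
    ((2 : ℝ) ^ (K * 4 ^ j)) ^ (-(1 / (2 : ℝ) ^ (j + 1))) *
      exp (4 * (((2 ^ 2 ^ j : ℕ) : ℝ) ^ (1 / (2 : ℝ) ^ (j + 1)) *
        (1 + log ((2 ^ 2 ^ j : ℕ) : ℝ)))) ≤ exp (-((K : ℝ) / 4 - 10) * 2 ^ j) := by
  have h2 : (0 : ℝ) < 2 ^ j := by positivity
  have h21 : (1 : ℝ) ≤ 2 ^ j := one_le_pow₀ (by norm_num)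
  have e1 : ((2 : ℝ) ^ (K * 4 ^ j)) ^ (-(1 / (2 : ℝ) ^ (j + 1))) =
      exp (-((K : ℝ) * log 2 / 2) * 2 ^ j) := by
    rw [← rpow_natCast, ← rpow_mul (by norm_num), rpow_def_of_pos (by norm_num)]
    congr 1
    push_cast
    have : (4 : ℝ) ^ j = 2 ^ j * 2 ^ j := by
      rw [← mul_pow]
      norm_num
    rw [this, pow_succ]
    field_simp
  have e2 : ((2 ^ 2 ^ j : ℕ) : ℝ) ^ (1 / (2 : ℝ) ^ (j + 1)) = √2 := by
    push_cast
    rw [← rpow_natCast, ← rpow_mul (by norm_num), sqrt_eq_rpow]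
    congr 1
    push_cast
    rw [pow_succ]
    field_simp
  have e3 : log ((2 ^ 2 ^ j : ℕ) : ℝ) = 2 ^ j * log 2 := by
    push_cast
    rw [log_pow]
    push_cast
    ring
  rw [e1, e2, e3, ← exp_add]
  apply exp_le_exp.2
  have hl1 : 0.6931 < log 2 := lt_trans (by norm_num) Real.log_two_gt_d9
  have hl2 : log 2 < 0.6932 := lt_trans Real.log_two_lt_d9 (by norm_num)
  have hs : √2 ≤ 1.415 := by
    rw [sqrt_le_left (by norm_num)]
    norm_num
  have hs0 : 0 ≤ √2 := sqrt_nonneg 2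
  have hK' : (40 : ℝ) ≤ K := by exact_mod_cast hK
  have h3 : 4 * (√2 * (1 + 2 ^ j * log 2)) ≤ 9.7 * 2 ^ j := by
    have h4 : 1 + 2 ^ j * log 2 ≤ 1.6932 * 2 ^ j := by nlinarith
    have h5 : √2 * (1 + 2 ^ j * log 2) ≤ 1.415 * (1.6932 * 2 ^ j) :=
      mul_le_mul hs h4 (by positivity) (by norm_num)
    linarith
  have h6 : (K : ℝ) / 4 ≤ K * log 2 / 2 := by nlinarith
  have h7 : (K : ℝ) / 4 * 2 ^ j ≤ K * log 2 / 2 * 2 ^ j := mul_le_mul_of_nonneg_right h6 h2.le
  nlinarith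

open Classical in
/-- **Almost all integers have no large smooth divisors.** For every `η > 0` there are a constant
`C` and a set `E` with at most `η x` elements up to `x`, for all `x`, such that every divisor `d`
of a positive integer outside `E` is at most `2 ^ (C (log₂ P) ^ 2)` for every `P ≥ 2` which is not
smaller than the prime divisors of `d`. -/
theorem divisors (η : ℝ) (hη : 0 < η) : ∃ (C : ℕ) (E : Set ℕ),
    (∀ x : ℕ, (((Ioc 0 x).filter (fun n => n ∈ E)).card : ℝ) ≤ η * x) ∧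
    ∀ n : ℕ, 0 < n → n ∉ E → ∀ d : ℕ, d ∣ n → ∀ P : ℕ, 2 ≤ P →
      (∀ p : ℕ, p.Prime → p ∣ d → p ≤ P) → logb 2 d ≤ C * (logb 2 P) ^ 2 := by
  -- the constant
  obtain ⟨K, hK40, hKη⟩ : ∃ K : ℕ, 40 + 4 * 1 ≤ K ∧ 2 * exp (-((K : ℝ) / 4 - 10)) ≤ η := by
    obtain ⟨K, hK⟩ := exists_nat_ge (max 44 (4 * (10 + log (2 / η))))
    refine ⟨K, ?_, ?_⟩
    · have := (le_max_left _ _).trans hK
      exact_mod_cast this
    · have h1 := (le_max_right _ _).trans hK
      have h2 : log (2 / η) ≤ (K : ℝ) / 4 - 10 := by linarith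
      have h3 : exp (-((K : ℝ) / 4 - 10)) ≤ exp (-log (2 / η)) := exp_le_exp.2 (by linarith)
      rw [← log_inv, exp_log (by positivity), inv_div] at h3
      linarith
  have hKr : (44 : ℝ) ≤ K := by exact_mod_cast hK40
  obtain ⟨κ, hκ⟩ : ∃ κ : ℝ, κ = (K : ℝ) / 4 - 10 := ⟨_, rfl⟩
  have hκ1 : 1 ≤ κ := by rw [hκ]; linarith
  rw [← hκ] at hKη
  obtain ⟨E, hE⟩ : ∃ E : Set ℕ, ∀ n, n ∈ E ↔ ∃ j : ℕ, ∃ d : ℕ, d ∣ n ∧
      (∀ p : ℕ, p.Prime → p ∣ d → p ≤ 2 ^ 2 ^ j) ∧ (2 : ℝ) ^ (K * 4 ^ j) < d :=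
    ⟨{n | _}, fun _ => Iff.rfl⟩
  refine ⟨4 * K, E, ?_, ?_⟩
  · intro x
    have h1 : (Ioc 0 x).filter (fun n => n ∈ E) ⊆ (range x).biUnion fun j =>
        (Ioc 0 x).filter (fun n => ∃ d : ℕ, d ∣ n ∧
          (∀ p : ℕ, p.Prime → p ∣ d → p ≤ 2 ^ 2 ^ j) ∧ (2 : ℝ) ^ (K * 4 ^ j) < d) := by
      intro n hn
      rw [mem_filter, mem_Ioc, hE] at hn
      obtain ⟨⟨hn0, hnx⟩, j, d, hd, hp, hz⟩ := hn
      rw [mem_biUnion]
      refine ⟨j, ?_, ?_⟩
      · rw [mem_range]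
        have hdx : d ≤ x := (Nat.le_of_dvd hn0 hd).trans hnx
        have h2 : 2 ^ (K * 4 ^ j) < d := by exact_mod_cast hz
        have h3 : j < 4 ^ j := Nat.lt_pow_self (by norm_num)
        have h4 : 4 ^ j ≤ K * 4 ^ j := Nat.le_mul_of_pos_left _ (by omega)
        have h5 : K * 4 ^ j < 2 ^ (K * 4 ^ j) := Nat.lt_pow_self (by norm_num)
        omega
      · rw [mem_filter, mem_Ioc]
        exact ⟨⟨hn0, hnx⟩, d, hd, hp, hz⟩
    have h2 : (((Ioc 0 x).filter (fun n => n ∈ E)).card : ℝ) ≤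
        ∑ j ∈ range x, (x : ℝ) * exp (-κ * 2 ^ j) := by
      refine le_trans (Nat.cast_le.2 ((card_le_card h1).trans card_biUnion_le)) ?_
      push_cast
      refine sum_le_sum fun j _ => ?_
      refine (few_divisors x (2 ^ 2 ^ j) (Nat.one_le_pow _ _ (by norm_num))
        (1 / (2 : ℝ) ^ (j + 1)) (by positivity) ?_ ((2 : ℝ) ^ (K * 4 ^ j)) (by positivity)).trans ?_
      · apply one_div_le_one_div_of_le (by norm_num)
        calc (2 : ℝ) = 2 ^ 1 := (pow_one _).symm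
          _ ≤ 2 ^ (j + 1) := pow_le_pow_right₀ (by norm_num) (by omega)
      · refine mul_le_mul_of_nonneg_left ?_ (by positivity)
        rw [hκ]
        exact scale K (by omega) j
    refine h2.trans ?_
    rw [← mul_sum, mul_comm]
    refine mul_le_mul_of_nonneg_right ?_ (by positivity)
    refine le_trans ?_ hKη
    have h3 : ∀ j ∈ range x, exp (-κ * 2 ^ j) ≤ exp (-κ) * (1 / 2) ^ j := by
      intro j _
      have h4 : (j : ℝ) + 1 ≤ 2 ^ j := by
        have : j + 1 ≤ 2 ^ j := Nat.lt_two_pow_self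
        exact_mod_cast this
      have h5 : (1 / 2 : ℝ) ^ j ≥ exp (-(j : ℝ)) := by
        have h6 : exp (-1 : ℝ) ≤ 1 / 2 := by
          rw [exp_neg, one_div]
          apply inv_anti₀ (by norm_num)
          have := add_one_le_exp (1 : ℝ)
          linarith
        calc exp (-(j : ℝ)) = (exp (-1 : ℝ)) ^ j := by
              rw [← exp_nat_mul]
              congr 1
              ring
          _ ≤ (1 / 2 : ℝ) ^ j := pow_le_pow_left₀ (exp_pos _).le h6 j
      calc exp (-κ * 2 ^ j) ≤ exp (-κ + -(j : ℝ)) := by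
            apply exp_le_exp.2
            nlinarith
        _ = exp (-κ) * exp (-(j : ℝ)) := exp_add _ _
        _ ≤ _ := mul_le_mul_of_nonneg_left h5 (exp_pos _).le
    refine (sum_le_sum h3).trans ?_
    rw [← mul_sum, mul_comm]
    refine mul_le_mul_of_nonneg_right ?_ (exp_pos _).le
    have h7 := geom_sum_eq (show (1 / 2 : ℝ) ≠ 1 by norm_num) x
    rw [h7]
    have h8 : (0 : ℝ) ≤ (1 / 2) ^ x := by positivity
    rw [div_le_iff_of_neg (by norm_num)]
    linarith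
  · intro n hn hnE d hd P hP hp
    obtain ⟨j, hj1, hj2⟩ : ∃ j : ℕ, P ≤ 2 ^ 2 ^ j ∧ ((j : ℕ) = 0 ∨ 2 ^ 2 ^ (j - 1) < P) := by
      have hex : ∃ j : ℕ, P ≤ 2 ^ 2 ^ j := by
        refine ⟨P, ?_⟩
        have h1 : P < 2 ^ P := Nat.lt_two_pow_self
        have h2 : 2 ^ P < 2 ^ 2 ^ P := Nat.pow_lt_pow_right (by norm_num) h1
        omega
      refine ⟨Nat.find hex, Nat.find_spec hex, ?_⟩
      rcases Nat.eq_zero_or_pos (Nat.find hex) with h | h
      · exact Or.inl h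
      · right
        have := Nat.find_min hex (m := Nat.find hex - 1) (by omega)
        omega
    have hd0 : 0 < d := Nat.pos_of_dvd_of_pos hd hn
    have hdr : (0 : ℝ) < d := by exact_mod_cast hd0
    have hle : (d : ℝ) ≤ (2 : ℝ) ^ (K * 4 ^ j) := by
      by_contra hcon
      exact hnE ((hE n).2 ⟨j, d, hd, fun p hpp hpd => (hp p hpp hpd).trans hj1, not_le.1 hcon⟩)
    have hlog : logb 2 d ≤ K * 4 ^ j := by
      rw [logb_le_iff_le_rpow (by norm_num) hdr]
      refine hle.trans (le_of_eq ?_)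
      rw [← rpow_natCast]
      push_cast
      rfl
    have hP1 : 1 ≤ logb 2 P := by
      rw [le_logb_iff_rpow_le (by norm_num) (by positivity), rpow_one]
      exact_mod_cast hP
    have hjP : (2 : ℝ) ^ j ≤ 2 * logb 2 P := by
      rcases hj2 with h | h
      · rw [h, pow_zero]
        linarith
      · rcases Nat.eq_zero_or_pos j with h0 | h0
        · rw [h0, pow_zero]
          linarith
        · have h3 : ((2 : ℝ) ^ (j - 1)) ≤ logb 2 P := by
            rw [le_logb_iff_rpow_le (by norm_num) (by positivity)]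
            have h4 : ((2 ^ 2 ^ (j - 1) : ℕ) : ℝ) ≤ P := by exact_mod_cast h.le
            refine le_trans (le_of_eq ?_) h4
            rw [show ((2 : ℝ) ^ (j - 1)) = ((2 ^ (j - 1) : ℕ) : ℝ) by push_cast; rfl,
              rpow_natCast]
            push_cast
            rfl
          have h5 : (2 : ℝ) ^ j = 2 * 2 ^ (j - 1) := by
            rw [← pow_succ']
            congr 1
            omega
          rw [h5]
          linarith
    calc logb 2 d ≤ K * 4 ^ j := hlog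
      _ = K * ((2 : ℝ) ^ j) ^ 2 := by
          rw [← pow_mul, mul_comm j 2, pow_mul]
          norm_num
      _ ≤ K * (2 * logb 2 P) ^ 2 := by
          refine mul_le_mul_of_nonneg_left ?_ (by positivity)
          exact pow_le_pow_left₀ (by positivity) hjP 2
      _ = ((4 * K : ℕ) : ℝ) * (logb 2 P) ^ 2 := by
          push_cast
          ring

end Pool.Agent.X249.AO
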