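import Mathlib
import Pool.Agent.TH669.TF.Few
import Pool.Agent.X249.AO.Mat
import Pool.Agent.X249.AO.Num

/-!
# Symmetric Boolean matrices of almost all orders: final bounds
(helper249, for MP_e5d384_lc)
-/

set_option autoImplicit false

namespace Pool.Agent.X249.AO

open Finset Real

section

variable {X Y : Type} [Fintype X] [Fintype Y]

/-- a matrix of rank `0` is zero -/
theorem rank_zero (F : X → Y → Bool) (h : (cmat ℝ F).rank = 0) (x : X) (y : Y) :
    F x y = false := by
  classical
  have h1 : LinearMap.range (cmat ℝ F).mulVecLin = ⊥ := Submodule.finrank_eq_zero.1 h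
  have h2 : (cmat ℝ F).mulVecLin = 0 := LinearMap.range_eq_bot.1 h1
  have h3 : (cmat ℝ F).mulVecLin (Pi.single y 1) x = 0 := by
    rw [h2]
    rfl
  rw [Matrix.mulVecLin_apply, Matrix.mulVec_single_one] at h3
  by_contra h4
  rw [Bool.not_eq_false] at h4
  simp [cmat, h4] at h3

theorem sub_cls (F : X → Y → Bool) (h : (cmat ℝ F).rank = 0) : Subsingleton (Cls F) := by
  refine ⟨fun a b => ?_⟩
  induction a using Quotient.inductionOn
  induction b using Quotient.inductionOn
  apply Quotient.sound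
  funext y
  rw [rank_zero F h, rank_zero F h]

variable {F : X → Y → Bool} {Γ : Subgroup (Equiv.Perm X)}

theorem card_range (F : X → Y → Bool) : Nat.card (Cls F) = Nat.card (Set.range F) :=
  Nat.card_congr (Setoid.quotientKerEquivRange F)

/-- the number of distinct rows in an orbit -/
theorem card_image (hΓ : Symm F Γ) (x : X) :
    letI := act hΓ
    Nat.card (F '' (MulAction.orbit Γ x)) =
      Nat.card (MulAction.orbit Γ (Quotient.mk _ x : Cls F)) := by
  letI := act hΓ
  refine Nat.card_congr (Equiv.ofBijective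
    (fun z : MulAction.orbit Γ (Quotient.mk _ x : Cls F) =>
      (⟨row F z.1, by
        obtain ⟨z, g, rfl⟩ := z
        exact ⟨(g : Equiv.Perm X) x, ⟨g, rfl⟩, rfl⟩⟩ : F '' (MulAction.orbit Γ x))) ⟨?_, ?_⟩).symm
  · intro a b hab
    apply Subtype.ext
    exact row_inj F (congrArg Subtype.val hab)
  · rintro ⟨ρ, z, ⟨g, rfl⟩, rfl⟩
    exact ⟨⟨Quotient.mk _ ((g : Equiv.Perm X) x), g, rfl⟩, rfl⟩

theorem orbit_pos (x : X) : 0 < Nat.card (MulAction.orbit Γ x) :=
  Nat.card_pos_iff.2 ⟨⟨⟨x, MulAction.mem_orbit_self x⟩⟩, Set.toFinite _⟩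

/-- from a bound for the orbits of classes to a bound for the number of rows -/
theorem rows_le (hΓ : Symm F Γ) (b : ℝ) (hb0 : 0 ≤ b)
    (hb : letI := act hΓ
      ∀ x : X, Real.logb 2 (Nat.card (MulAction.orbit Γ (Quotient.mk _ x : Cls F))) ≤ b) :
    Real.logb 2 (Nat.card (Cls F)) ≤
      Real.logb 2 (Nat.card (MulAction.orbitRel.Quotient Γ X)) + b := by
  classical
  letI := act hΓ
  have hfinQ : Finite (Cls F) := Quotient.finite _
  have h := card_cls hΓ ((2 : ℝ) ^ b) (by
    intro x
    have hpos : (0 : ℝ) < Nat.card (MulAction.orbit Γ (Quotient.mk _ x : Cls F)) := by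
      have : 0 < Nat.card (MulAction.orbit Γ (Quotient.mk _ x : Cls F)) :=
        Nat.card_pos_iff.2 ⟨⟨⟨_, MulAction.mem_orbit_self _⟩⟩, Set.toFinite _⟩
      exact_mod_cast this
    exact (Real.logb_le_iff_le_rpow (by norm_num) hpos).1 (hb x))
  rcases Nat.eq_zero_or_pos (Nat.card (Cls F)) with h0 | h0
  · rw [h0, Nat.cast_zero, Real.logb_zero]
    have := Pool.Agent.H630R2.LR.logb_nonneg (Nat.card (MulAction.orbitRel.Quotient Γ X))
    linarith
  · have h0' : (0 : ℝ) < Nat.card (Cls F) := by exact_mod_cast h0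
    have ht : (0 : ℝ) < Nat.card (MulAction.orbitRel.Quotient Γ X) := by
      by_contra hcon
      have h' : (Nat.card (MulAction.orbitRel.Quotient Γ X) : ℝ) = 0 :=
        le_antisymm (not_lt.1 hcon) (Nat.cast_nonneg _)
      rw [h', zero_mul] at h
      linarith
    have h2 := Real.logb_le_logb_of_le (b := 2) (by norm_num) h0' h
    rwa [Real.logb_mul ht.ne' (by positivity), Real.logb_rpow (by norm_num) (by norm_num)] at h2

end

open Classical in
/-- **the two exceptional sets** -/
theorem final (η : ℝ) (hη : 0 < η) : ∃ (C : ℕ) (E : Set ℕ),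
    (∀ x : ℕ, (((Ioc 0 x).filter (fun n => n ∈ E)).card : ℝ) ≤ η * x) ∧
    ∀ (X Y : Type) [Fintype X] [Fintype Y] (F : X → Y → Bool) (Γ : Subgroup (Equiv.Perm X)),
      Symm F Γ → (∀ x : X, Nat.card (MulAction.orbit Γ x) ∉ E) →
      (Real.logb 2 (Nat.card (Cls F)) ≤
        Real.logb 2 (Nat.card (MulAction.orbitRel.Quotient Γ X)) +
          C * (Real.logb 2 ((cmat ℝ F).rank + 1)) ^ 2) ∧
      (Function.Injective F → Real.logb 2 (Nat.card (Cls F)) ≤
        Real.logb 2 (Nat.card (MulAction.orbitRel.Quotient Γ X)) +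
          C * (Real.logb 2 ((cmat ℝ F).rank + 1))) := by
  obtain ⟨C1, E1, hE1, h1⟩ := divisors (η / 2) (by linarith)
  obtain ⟨C2, N0, hC2, hcount⟩ := Pool.Agent.TH669.TF.few_poly (η / 2) (by linarith)
  obtain ⟨E2, hE2⟩ : ∃ E : Set ℕ, ∀ n, n ∈ E ↔
      (N0 < n ∧ ∀ p : ℕ, p.Prime → p ∣ n → C2 * log p < log n) := ⟨{n | _}, fun _ => Iff.rfl⟩
  obtain ⟨C3, hC3⟩ := exists_nat_ge (max C2 (Real.logb 2 N0))
  refine ⟨C1 + C3, E1 ∪ E2, fun x => ?_, ?_⟩
  · have h2 : (Ioc 0 x).filter (fun n => n ∈ E1 ∪ E2) ⊆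
        (Ioc 0 x).filter (fun n => n ∈ E1) ∪ (Ioc 0 x).filter (fun n => N0 < n ∧
          ∀ p : ℕ, p.Prime → p ∣ n → C2 * log p < log n) := by
      intro n hn
      rw [mem_filter] at hn
      rw [mem_union, mem_filter, mem_filter]
      rcases hn.2 with h | h
      · exact Or.inl ⟨hn.1, h⟩
      · exact Or.inr ⟨hn.1, (hE2 n).1 h⟩
    have h3 := (card_le_card h2).trans (card_union_le _ _)
    have h4 : (((Ioc 0 x).filter (fun n => n ∈ E1 ∪ E2)).card : ℝ) ≤
        ((Ioc 0 x).filter (fun n => n ∈ E1)).card + ((Ioc 0 x).filter (fun n => N0 < n ∧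
          ∀ p : ℕ, p.Prime → p ∣ n → C2 * log p < log n)).card := by exact_mod_cast h3
    have h7 : η * (x : ℝ) = η / 2 * x + η / 2 * x := by ring
    rw [h7]
    refine le_trans (le_trans (le_of_eq ?_) h4) (add_le_add (le_trans (le_of_eq ?_) (hE1 x))
      (le_trans (le_of_eq ?_) (hcount x)))
    · congr!
    · congr!
    · congr!
  · intro X Y _ _ F Γ hΓ horb
    obtain ⟨r, hr⟩ : ∃ r : ℕ, r = (cmat ℝ F).rank := ⟨_, rfl⟩
    rw [← hr]
    have hl0 : 0 ≤ Real.logb 2 ((r : ℝ) + 1) := Real.logb_nonneg (by norm_num) (by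
      have : (0 : ℝ) ≤ r := Nat.cast_nonneg r
      linarith)
    rcases Nat.eq_zero_or_pos r with h0 | h0
    · -- all rows are equal
      have hs := sub_cls F (by rw [← hr, h0])
      have h2 : Real.logb 2 (Nat.card (Cls F)) = 0 := by
        have h3 : Nat.card (Cls F) ≤ 1 := Finite.card_le_one_iff_subsingleton.2 hs
        rcases Nat.le_one_iff_eq_zero_or_eq_one.1 h3 with h4 | h4
        · rw [h4]; simp
        · rw [h4]; simp
      have h5 := Pool.Agent.H630R2.LR.logb_nonneg (Nat.card (MulAction.orbitRel.Quotient Γ X))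
      rw [h2]
      refine ⟨by positivity, fun _ => by positivity⟩
    · have hr1 : (1 : ℝ) ≤ r := by exact_mod_cast h0
      have hl1 : 1 ≤ Real.logb 2 ((r : ℝ) + 1) := by
        rw [Real.le_logb_iff_rpow_le (by norm_num) (by positivity), rpow_one]
        linarith
      letI := act hΓ
      refine ⟨?_, fun hinj => ?_⟩
      · apply rows_le hΓ _ (by positivity)
        intro x
        have h2 := h1 (Nat.card (MulAction.orbit Γ x)) (orbit_pos x)
          (fun h => horb x (Or.inl h)) (Nat.card (MulAction.orbit Γ (Quotient.mk _ x : Cls F)))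
          (orbit_dvd hΓ x) (r + 1) (by omega)
          (fun p hp hd => by rw [hr]; exact prime_orbit hΓ _ p hp hd)
        refine h2.trans ?_
        push_cast
        refine mul_le_mul_of_nonneg_right ?_ (by positivity)
        have : (0 : ℝ) ≤ C3 := Nat.cast_nonneg _
        linarith
      · apply rows_le hΓ _ (by positivity)
        intro x
        have hcard : Nat.card (MulAction.orbit Γ (Quotient.mk _ x : Cls F)) =
            Nat.card (MulAction.orbit Γ x) := by
          apply le_antisymm (Nat.le_of_dvd (orbit_pos x) (orbit_dvd hΓ x))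
          have hfinQ : Finite (Cls F) := Quotient.finite _
          apply Nat.card_le_card_of_injective (β := MulAction.orbit Γ (Quotient.mk _ x : Cls F))
            (fun z : MulAction.orbit Γ x => ⟨Quotient.mk _ z.1, by
              obtain ⟨z, g, rfl⟩ := z
              exact ⟨g, rfl⟩⟩)
          intro a b hab
          apply Subtype.ext
          have h3 : (Quotient.mk _ a.1 : Cls F) = Quotient.mk _ b.1 := congrArg Subtype.val hab
          exact hinj (Quotient.exact h3)
        have hn2 : Nat.card (MulAction.orbit Γ x) ∉ E2 := fun h => horb x (Or.inr h)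
        have hpos := orbit_pos (Γ := Γ) x
        have hpr := fun p hp => prime_orbit hΓ (Quotient.mk _ x : Cls F) p hp
        rw [hcard] at hpr ⊢
        generalize Nat.card (MulAction.orbit Γ x) = n at hn2 hpos hpr ⊢
        have hC3a : C2 ≤ C3 := (le_max_left _ _).trans hC3
        have hC3b : Real.logb 2 N0 ≤ C3 := (le_max_right _ _).trans hC3
        have hC1 : (0 : ℝ) ≤ C1 := Nat.cast_nonneg _
        push_cast
        by_cases hN : n ≤ N0
        · have h6 : Real.logb 2 (n : ℝ) ≤ Real.logb 2 N0 :=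
            Real.logb_le_logb_of_le (by norm_num) (by exact_mod_cast hpos) (by exact_mod_cast hN)
          nlinarith
        · have h6 : ¬ ∀ p : ℕ, p.Prime → p ∣ n → C2 * log p < log n := fun h =>
            hn2 ((hE2 n).2 ⟨not_le.1 hN, h⟩)
          push Not at h6
          obtain ⟨p, hp, hpn, hlog⟩ := h6
          have h7 := hpr p hp hpn
          rw [← hr] at h7
          have h8 : (p : ℝ) ≤ (r : ℝ) + 1 := by exact_mod_cast h7
          have h9 : Real.logb 2 (p : ℝ) ≤ Real.logb 2 ((r : ℝ) + 1) :=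
            Real.logb_le_logb_of_le (by norm_num) (by exact_mod_cast hp.pos) h8
          have h10 : Real.logb 2 (n : ℝ) ≤ C2 * Real.logb 2 p := by
            rw [Real.logb, Real.logb, ← mul_div_assoc]
            exact div_le_div_of_nonneg_right hlog (Real.log_nonneg (by norm_num))
          have h11 : 0 ≤ Real.logb 2 (p : ℝ) := Pool.Agent.H630R2.LR.logb_nonneg p
          have h12 : C2 * Real.logb 2 p ≤ C3 * Real.logb 2 ((r : ℝ) + 1) :=
            mul_le_mul hC3a h9 h11 (by linarith)
          nlinarith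

open Pool.Agent.H630R2.LR in
/-- the protocol bounds -/
theorem proto_le {X Y : Type} [Fintype X] (F : X → Y → Bool) (B : ℝ)
    (h : Real.logb 2 (Nat.card (Cls F)) ≤ B) :
    ∃ c : ℕ, Proto F c ∧ (c : ℝ) ≤ B + 2 := by
  obtain ⟨c, h1, h2⟩ := row_protocol F
  exact ⟨c, h1, by linarith⟩

/-- the left translations of a group -/
def leftTr (G : Type) [Group G] : Subgroup (Equiv.Perm G) := (MulAction.toPermHom G G).range

theorem leftTr_symm {G : Type} [Group G] (f : G → Bool) :
    Symm (fun x y : G => f (x⁻¹ * y)) (leftTr G) := by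
  rintro σ ⟨g, rfl⟩
  refine ⟨MulAction.toPermHom G G g, fun x y => ?_⟩
  change f ((g * x)⁻¹ * (g * y)) = f (x⁻¹ * y)
  congr 1
  group

theorem leftTr_orbit {G : Type} [Group G] (x : G) :
    Nat.card (MulAction.orbit (leftTr G) x) = Nat.card G := by
  have : MulAction.orbit (leftTr G) x = Set.univ := by
    rw [Set.eq_univ_iff_forall]
    intro y
    refine ⟨⟨MulAction.toPermHom G G (y * x⁻¹), ⟨_, rfl⟩⟩, ?_⟩
    change y * x⁻¹ * x = y
    group
  rw [this]
  exact Nat.card_congr (Equiv.Set.univ G)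

theorem leftTr_quot {G : Type} [Group G] :
    Nat.card (MulAction.orbitRel.Quotient (leftTr G) G) = 1 := by
  rw [Nat.card_eq_one_iff_unique]
  refine ⟨⟨fun a b => ?_⟩, ⟨Quotient.mk _ 1⟩⟩
  induction a using Quotient.inductionOn with
  | _ a =>
  induction b using Quotient.inductionOn with
  | _ b =>
  apply Quotient.sound
  change a ∈ MulAction.orbit (leftTr G) b
  refine ⟨⟨MulAction.toPermHom G G (a * b⁻¹), ⟨_, rfl⟩⟩, ?_⟩
  change a * b⁻¹ * b = a
  group

end Pool.Agent.X249.AO
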